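import Pool.Agent.Helper6.O3.St2

/-!
# Project O3 (MP_d49380_lc): module EX (the periodic case, roots)
-/

set_option autoImplicit false

namespace Pool.Agent.Helper89.O3

open Pool.Agent.Helper6.O3 Filter Topology
open Pool.Agent.Helper99.DF (T TL sq)

/-- a positive root of the cubic -/
private lemma root_EX (p q r : ℝ) (hr : 0 < r) :
    ∃ α : ℝ, 0 < α ∧ α ^ 3 - p * α ^ 2 - q * α - r = 0 := by
  obtain ⟨X, hX⟩ : ∃ X : ℝ, X = 1 + |p| + |q| + r := ⟨_, rfl⟩
  have hp := abs_nonneg p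
  have hq := abs_nonneg q
  have hX1 : 1 ≤ X := by linarith
  have hX2 : X ≤ X ^ 2 := by nlinarith
  have hX3 : 1 ≤ X ^ 2 := by linarith
  have hfX : 0 ≤ X ^ 3 - p * X ^ 2 - q * X - r := by
    have h1 : p * X ^ 2 ≤ |p| * X ^ 2 := mul_le_mul_of_nonneg_right (le_abs_self p) (by positivity)
    have h2 : q * X ≤ |q| * X ^ 2 :=
      calc q * X ≤ |q| * X := mul_le_mul_of_nonneg_right (le_abs_self q) (by linarith)
        _ ≤ |q| * X ^ 2 := mul_le_mul_of_nonneg_left hX2 hq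
    have h3 : r ≤ r * X ^ 2 := le_mul_of_one_le_right hr.le hX3
    have h4 : X ^ 3 = X ^ 2 * (1 + |p| + |q| + r) := by rw [← hX]; ring
    have h5 : X ^ 3 = X ^ 2 + |p| * X ^ 2 + |q| * X ^ 2 + r * X ^ 2 := by rw [h4]; ring
    linarith
  have hc : ContinuousOn (fun x : ℝ => x ^ 3 - p * x ^ 2 - q * x - r) (Set.Icc 0 X) := by
    apply Continuous.continuousOn
    fun_prop
  obtain ⟨α, hα, hα0⟩ := intermediate_value_Icc (show (0 : ℝ) ≤ X by linarith) hc
    (show (0 : ℝ) ∈ Set.Icc _ _ from ⟨by simpa using hr.le, hfX⟩)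
  refine ⟨α, lt_of_le_of_ne hα.1 ?_, hα0⟩
  rintro rfl
  simp only at hα0
  apply hr.ne'
  linarith

private lemma pos_EX (e : ℕ → ℝ) (P Q : ℝ) (hP : 0 < P) (hPQ : 4 * Q ≤ P ^ 2)
    (h0 : e 0 = 0) (h1 : 0 < e 1) (hrec : ∀ n, e (n + 2) = P * e (n + 1) - Q * e n) :
    ∀ n, 0 ≤ e n ∧ 0 < e (n + 1) ∧ P / 2 * e n ≤ e (n + 1) := by
  intro n
  induction n with
  | zero => exact ⟨h0.ge, h1, by rw [h0]; simpa using h1.le⟩
  | succ n ih =>
    obtain ⟨i0, i1, i2⟩ := ih
    have h2 : P / 2 * e (n + 1) ≤ e (n + 1 + 1) := by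
      rw [show n + 1 + 1 = n + 2 by rfl, hrec n]
      have h3 : Q * e n ≤ P ^ 2 / 4 * e n := mul_le_mul_of_nonneg_right (by linarith) i0
      have h4 : P / 2 * (P / 2 * e n) ≤ P / 2 * e (n + 1) :=
        mul_le_mul_of_nonneg_left i2 (by linarith)
      nlinarith
    exact ⟨i1.le, lt_of_lt_of_le (by positivity) h2, h2⟩

private lemma disc_EX (e : ℕ → ℝ) (P Q : ℝ) (hQ : 0 < Q)
    (h0 : e 0 = 0) (h1 : 0 < e 1) (hrec : ∀ n, e (n + 2) = P * e (n + 1) - Q * e n)
    (j : ℕ) (hj : 1 ≤ j) (hej : e j = 0) : P ^ 2 < 4 * Q := by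
  by_contra h
  push Not at h
  have hP : P ≠ 0 := by
    rintro rfl
    nlinarith
  obtain ⟨i, rfl⟩ := Nat.exists_eq_add_of_le' hj
  rcases lt_or_gt_of_ne hP with hneg | hpos
  · have h2 := (pos_EX (fun n => (-1) ^ (n + 1) * e n) (-P) Q (by linarith) (by nlinarith)
      (by simp [h0]) (by simpa using h1) (fun n => by
        show (-1) ^ (n + 2 + 1) * e (n + 2) = -P * ((-1) ^ (n + 1 + 1) * e (n + 1)) -
          Q * ((-1) ^ (n + 1) * e n)
        rw [hrec]
        ring) i).2.1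
    rw [hej, mul_zero] at h2
    exact lt_irrefl _ h2
  · exact (pos_EX e P Q hpos h h0 h1 hrec i).2.1.ne' hej

private lemma trig_EX (e : ℕ → ℝ) (s θ E : ℝ) (h0 : e 0 = 0) (h1 : e 1 = E)
    (hrec : ∀ n, e (n + 2) = 2 * s * Real.cos θ * e (n + 1) - s ^ 2 * e n) :
    ∀ n : ℕ, s * Real.sin θ * e n = E * s ^ n * Real.sin (n * θ) ∧
      s * Real.sin θ * e (n + 1) = E * s ^ (n + 1) * Real.sin (((n : ℝ) + 1) * θ) := by
  intro n
  induction n with
  | zero =>
    constructor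
    · simp [h0]
    · simp [h1]
      ring
  | succ n ih =>
    obtain ⟨i0, i1⟩ := ih
    refine ⟨by push_cast; exact i1, ?_⟩
    have ha : Real.sin (((n : ℝ) + 1) * θ + θ) = Real.sin (((n : ℝ) + 1) * θ) * Real.cos θ +
      Real.cos (((n : ℝ) + 1) * θ) * Real.sin θ := Real.sin_add _ _
    have hb : Real.sin (((n : ℝ) + 1) * θ - θ) = Real.sin (((n : ℝ) + 1) * θ) * Real.cos θ -
      Real.cos (((n : ℝ) + 1) * θ) * Real.sin θ := Real.sin_sub _ _
    have hc : ((n : ℝ) + 1) * θ - θ = n * θ := by ring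
    have hd : (((n + 1 : ℕ) : ℝ) + 1) * θ = ((n : ℝ) + 1) * θ + θ := by push_cast; ring
    rw [hc] at hb
    rw [hd, ha, show n + 1 + 1 = n + 2 by rfl, hrec n]
    calc s * Real.sin θ * (2 * s * Real.cos θ * e (n + 1) - s ^ 2 * e n) =
        2 * s * Real.cos θ * (s * Real.sin θ * e (n + 1)) -
          s ^ 2 * (s * Real.sin θ * e n) := by ring
      _ = 2 * s * Real.cos θ * (E * s ^ (n + 1) * Real.sin (((n : ℝ) + 1) * θ)) -
          s ^ 2 * (E * s ^ n * Real.sin (n * θ)) := by rw [i0, i1]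
      _ = _ := by
        rw [hb]
        ring

/-- the telescoping sum -/
private lemma tel_EX (φ : ℝ) (n : ℕ) :
    (∑ i ∈ Finset.range n, Real.sin (i * (2 * φ))) * Real.sin φ =
      Real.sin (((n : ℝ) - 1) * φ) * Real.sin (n * φ) := by
  induction n with
  | zero => simp
  | succ n ih =>
    rw [Finset.sum_range_succ, add_mul, ih]
    have ha : Real.sin ((n : ℝ) * φ + φ) = Real.sin ((n : ℝ) * φ) * Real.cos φ +
      Real.cos ((n : ℝ) * φ) * Real.sin φ := Real.sin_add _ _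
    have hb : Real.sin ((n : ℝ) * φ - φ) = Real.sin ((n : ℝ) * φ) * Real.cos φ -
      Real.cos ((n : ℝ) * φ) * Real.sin φ := Real.sin_sub _ _
    have h1 : ((n : ℝ) - 1) * φ = (n : ℝ) * φ - φ := by ring
    have h2 : ((n + 1 : ℕ) : ℝ) * φ = (n : ℝ) * φ + φ := by push_cast; ring
    have h3 : (((n + 1 : ℕ) : ℝ) - 1) * φ = (n : ℝ) * φ := by push_cast; ring
    have h4 : (n : ℝ) * (2 * φ) = 2 * ((n : ℝ) * φ) := by ring
    rw [h1, h2, h3, h4, ha, hb, Real.sin_two_mul]
    ring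

theorem hEX : StEX := by
  intro c p q r j hc0 hc1 hc2 hka hr hnn hj hcj hcj1
  obtain ⟨α, hα, hf⟩ := root_EX p q r hr
  obtain ⟨Q, hQ⟩ : ∃ Q : ℝ, Q = r / α := ⟨_, rfl⟩
  obtain ⟨P', hP'⟩ : ∃ P' : ℝ, P' = p - α := ⟨_, rfl⟩
  have hQ0 : 0 < Q := by rw [hQ]; positivity
  have hr' : r = α * Q := by rw [hQ]; field_simp
  have hq' : q = -(α * P' + Q) := by
    have h1 : α * (q + (α * P' + Q)) = 0 := by
      rw [hP']
      have : α * (q + (α * (p - α) + Q)) = -(α ^ 3 - p * α ^ 2 - q * α - α * Q) := by ring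
      rw [this, ← hr', hf, neg_zero]
    have h2 := (mul_eq_zero.mp h1).resolve_left hα.ne'
    linarith
  have hp' : p = P' + α := by rw [hP']; ring
  have hrc : ∀ m, c (m + 3) = p * c (m + 2) + q * c (m + 1) + r * c m := by
    intro m
    have := hka m
    unfold ka at this
    linarith
  obtain ⟨e, he⟩ : ∃ e : ℕ → ℝ, e = fun n => c (n + 1) - α * c n := ⟨_, rfl⟩
  have he' : ∀ n, e n = c (n + 1) - α * c n := fun n => by rw [he]
  have hcn : ∀ n, c (n + 1) = α * c n + e n := fun n => by rw [he' n]; ring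
  have herec : ∀ n, e (n + 2) = P' * e (n + 1) - Q * e n := by
    intro n
    rw [he' (n + 2), he' (n + 1), he' n, show n + 2 + 1 = n + 3 by rfl,
      show n + 1 + 1 = n + 2 by rfl, hrc n, hp', hq', hr']
    ring
  have he0 : e 0 = 0 := by rw [he' 0, hc1, hc0]; ring
  have he1 : e 1 = c 2 := by rw [he' 1, hc1]; ring
  have hej : e j = 0 := by rw [he' j, hcj, hcj1]; ring
  have hdisc : P' ^ 2 < 4 * Q :=
    disc_EX e P' Q hQ0 he0 (by rw [he1]; exact hc2) herec j (by omega) hej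
  obtain ⟨s, hs⟩ : ∃ s : ℝ, s = Real.sqrt Q := ⟨_, rfl⟩
  have hs0 : 0 < s := by rw [hs]; exact Real.sqrt_pos.mpr hQ0
  have hs2 : s ^ 2 = Q := by rw [hs]; exact Real.sq_sqrt hQ0.le
  have habs : |P' / (2 * s)| < 1 := by
    rw [abs_div, abs_of_pos (show 0 < 2 * s by positivity), div_lt_one (by positivity)]
    apply abs_lt_of_sq_lt_sq _ (by positivity)
    rw [mul_pow, hs2]
    linarith
  obtain ⟨θ, hθ⟩ : ∃ θ : ℝ, θ = Real.arccos (P' / (2 * s)) := ⟨_, rfl⟩
  have hcos : Real.cos θ = P' / (2 * s) := by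
    rw [hθ]
    exact Real.cos_arccos (abs_lt.mp habs).1.le (abs_lt.mp habs).2.le
  have hθ0 : 0 < θ := by rw [hθ]; exact Real.arccos_pos.mpr (abs_lt.mp habs).2
  have hθπ : θ < Real.pi := by
    rcases (Real.arccos_le_pi (P' / (2 * s))).lt_or_eq with h | h
    · rw [hθ]; exact h
    · exfalso
      rw [← hθ] at h
      rw [h, Real.cos_pi] at hcos
      have := (abs_lt.mp habs).1
      linarith
  have hsin : 0 < Real.sin θ := Real.sin_pos_of_pos_of_lt_pi hθ0 hθπ
  have hP2 : P' = 2 * s * Real.cos θ := by rw [hcos]; field_simp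
  have htr := trig_EX e s θ (c 2) he0 he1 (fun n => by rw [herec n, hs2, ← hP2])
  -- the period
  obtain ⟨la, hla⟩ : ∃ la : ℝ, la = c (j + 2) / c 2 := ⟨_, rfl⟩
  have hla0 : 0 ≤ la := by rw [hla]; exact div_nonneg (hnn _) hc2.le
  have hla2 : c (j + 2) = la * c 2 := by rw [hla]; field_simp
  have hsj : Real.sin (j * θ) = 0 := by
    have h1 := (htr j).1
    rw [hej, mul_zero] at h1
    have h2 : c 2 * s ^ j ≠ 0 := by positivity
    exact (mul_eq_zero.mp h1.symm).resolve_left h2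
  have hlas : la = s ^ j * Real.cos (j * θ) := by
    have h1 := (htr j).2
    have h2 : e (j + 1) = la * c 2 := by
      rw [he' (j + 1), hcj1, show j + 1 + 1 = j + 2 by rfl, hla2]
      ring
    have h3 : ((j : ℝ) + 1) * θ = (j : ℝ) * θ + θ := by ring
    rw [h2, h3, Real.sin_add, hsj, zero_mul, zero_add] at h1
    have h4 : s * Real.sin θ * c 2 * la = s * Real.sin θ * c 2 * (s ^ j * Real.cos (j * θ)) := by
      rw [pow_succ] at h1
      linarith
    exact mul_left_cancel₀ (by positivity) h4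
  have hcj1' : Real.cos (j * θ) = 1 := by
    have h1 := Real.sin_sq_add_cos_sq ((j : ℝ) * θ)
    rw [hsj] at h1
    have h2 : 0 ≤ Real.cos (j * θ) := by
      by_contra hneg
      push Not at hneg
      have : s ^ j * Real.cos (j * θ) < 0 := mul_neg_of_pos_of_neg (by positivity) hneg
      linarith
    nlinarith
  obtain ⟨φ, hφ⟩ : ∃ φ : ℝ, φ = θ / 2 := ⟨_, rfl⟩
  have hθφ : θ = 2 * φ := by rw [hφ]; ring
  have hφ0 : 0 < φ := by rw [hφ]; positivity
  have hφπ : φ < Real.pi / 2 := by rw [hφ]; linarith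
  have hsφ : 0 < Real.sin φ := Real.sin_pos_of_pos_of_lt_pi hφ0 (by linarith [Real.pi_pos])
  have hsjφ : Real.sin (j * φ) = 0 := by
    have h1 : Real.cos (2 * (j * φ)) = 1 := by
      rw [← hcj1', hθφ]
      congr 1
      ring
    have h2 := Real.sin_sq_eq_half_sub (j * φ)
    rw [h1] at h2
    have h3 : Real.sin (j * φ) ^ 2 = 0 := by rw [h2]; ring
    exact pow_eq_zero_iff (two_ne_zero) |>.mp h3
  -- the normalised sequence
  obtain ⟨x, hx⟩ : ∃ x : ℕ → ℝ, x = fun n => c n / s ^ n := ⟨_, rfl⟩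
  have hx' : ∀ n, x n = c n / s ^ n := fun n => by rw [hx]
  obtain ⟨C, hC⟩ : ∃ C : ℝ, C = c 2 / (s ^ 2 * Real.sin θ) := ⟨_, rfl⟩
  have hC0 : 0 < C := by rw [hC]; positivity
  have hxs : ∀ n : ℕ, x (n + 1) = α / s * x n + C * Real.sin (n * (2 * φ)) := by
    intro n
    have h1 := (htr n).1
    rw [hx' (n + 1), hx' n, hC, hcn n, ← hθφ]
    have h2 : e n = c 2 * s ^ n * Real.sin (n * θ) / (s * Real.sin θ) := by
      rw [← h1]
      field_simp
    rw [h2]
    field_simp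
    ring
  have hx0 : x 0 = 0 := by rw [hx' 0, hc0]; simp
  have hxj : x j = 0 := by rw [hx' j, hcj]; simp
  have hxn : ∀ n, 0 ≤ x n := fun n => by rw [hx' n]; exact div_nonneg (hnn n) (by positivity)
  have hx2 : 0 < x 2 := by rw [hx' 2]; positivity
  have hS0 : 0 < ∑ n ∈ Finset.range j, x n :=
    lt_of_lt_of_le hx2 (Finset.single_le_sum (f := x) (fun n _ => hxn n)
      (Finset.mem_range.mpr (by omega)))
  have hS1 : ∑ n ∈ Finset.range j, x (n + 1) = ∑ n ∈ Finset.range j, x n := by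
    have h1 := Finset.sum_range_succ x j
    have h2 := Finset.sum_range_succ' x j
    rw [hxj, add_zero] at h1
    rw [hx0, add_zero] at h2
    rw [← h1, ← h2]
  have hS2 : ∑ n ∈ Finset.range j, x (n + 1) = α / s * ∑ n ∈ Finset.range j, x n := by
    have h1 : ∑ n ∈ Finset.range j, Real.sin ((n : ℝ) * (2 * φ)) = 0 := by
      have h2 := tel_EX φ j
      rw [hsjφ, mul_zero] at h2
      exact (mul_eq_zero.mp h2).resolve_right hsφ.ne'
    rw [Finset.sum_congr rfl (fun n _ => hxs n), Finset.sum_add_distrib, ← Finset.mul_sum,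
      ← Finset.mul_sum, h1, mul_zero, add_zero]
  have hαs : α = s := by
    rw [hS1] at hS2
    have h1 : α / s = 1 := by
      have h2 : (α / s - 1) * ∑ n ∈ Finset.range j, x n = 0 := by linarith
      have h3 := (mul_eq_zero.mp h2).resolve_right hS0.ne'
      linarith
    rw [div_eq_one_iff_eq hs0.ne'] at h1
    exact h1
  have hform : ∀ n : ℕ, x n * Real.sin φ =
      C * (Real.sin (((n : ℝ) - 1) * φ) * Real.sin (n * φ)) := by
    intro n
    rw [← tel_EX φ n, ← mul_assoc]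
    congr 1
    induction n with
    | zero => simp [hx0]
    | succ n ih =>
      rw [hxs n, hαs, div_self hs0.ne', one_mul, ih, Finset.sum_range_succ]
      ring
  have hcform : ∀ k : ℕ, c k = C / Real.sin φ * s ^ k * Real.sin (((k : ℝ) - 1) * φ) *
      Real.sin ((k : ℝ) * φ) := by
    intro k
    have h1 := hform k
    have h2 : c k = x k * s ^ k := by rw [hx' k]; field_simp
    have h3 : x k = C * (Real.sin (((k : ℝ) - 1) * φ) * Real.sin (k * φ)) / Real.sin φ := by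
      rw [← h1]
      field_simp
    rw [h2, h3]
    ring
  -- the period
  have hex : ∃ n : ℕ, Real.pi ≤ n * φ := by
    obtain ⟨n, hn⟩ := exists_nat_ge (Real.pi / φ)
    exact ⟨n, by rwa [div_le_iff₀ hφ0] at hn⟩
  classical
  obtain ⟨P, hP, hPmin⟩ : ∃ P : ℕ, Real.pi ≤ P * φ ∧ ∀ n < P, (n : ℝ) * φ < Real.pi :=
    ⟨Nat.find hex, Nat.find_spec hex, fun n hn => not_le.mp (Nat.find_min hex hn)⟩
  have hP3 : 3 ≤ P := by
    by_contra h
    push Not at h
    have h1 : (P : ℝ) ≤ 2 := by exact_mod_cast (show P ≤ 2 by omega)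
    have h2 : (P : ℝ) * φ ≤ 2 * φ := mul_le_mul_of_nonneg_right h1 hφ0.le
    linarith
  have hPφ : (P : ℝ) * φ = Real.pi := by
    by_contra hne
    have hgt : Real.pi < P * φ := lt_of_le_of_ne hP (Ne.symm hne)
    have h1 : (((P - 1 : ℕ) : ℝ)) * φ < Real.pi := hPmin (P - 1) (by omega)
    rw [Nat.cast_sub (by omega), Nat.cast_one] at h1
    have h2 : 0 < Real.sin (((P : ℝ) - 1) * φ) := by
      apply Real.sin_pos_of_pos_of_lt_pi _ h1
      have : (3 : ℝ) ≤ P := by exact_mod_cast hP3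
      exact mul_pos (by linarith) hφ0
    have h3 : Real.sin ((P : ℝ) * φ) < 0 := by
      have h4 : Real.sin ((P : ℝ) * φ) = -Real.sin ((P : ℝ) * φ - Real.pi) := by
        rw [Real.sin_sub_pi, neg_neg]
      rw [h4, neg_lt_zero]
      apply Real.sin_pos_of_pos_of_lt_pi (by linarith)
      linarith [Real.pi_pos]
    have h5 := hnn P
    rw [hcform P] at h5
    have h6 : 0 < C / Real.sin φ * s ^ P * Real.sin (((P : ℝ) - 1) * φ) := by positivity
    have h7 := mul_neg_of_pos_of_neg h6 h3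
    linarith
  refine ⟨s, P, C / Real.sin φ, hs0, hP3, by positivity, ?_⟩
  intro k
  have h1 : Real.pi / P = φ := by
    have h2 : (P : ℝ) ≠ 0 := by
      have : 0 < P := by omega
      positivity
    rw [← hPφ]
    field_simp
  rw [h1]
  exact hcform k

end Pool.Agent.Helper89.O3
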